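import Mathlib

/-!
Job 281 (helper910, effective Siegel theorem) by helper660: a monic polynomial in two variables
whose edge polynomial is irreducible is prime.
-/

set_option autoImplicit false

namespace Pool.Agent.Y660.SG

open Polynomial

/-- `U ↦ T ^ p`, `V ↦ V T ^ q` -/
noncomputable def phi (p q : ℕ) : ℤ[X][X] →+* ℤ[X][X] :=
  eval₂RingHom ((expand ℤ[X] p).toRingHom.comp (mapRingHom (C : ℤ →+* ℤ[X]))) (C X * X ^ q)

theorem coeff_psi (p : ℕ) (hp : 0 < p) (a : ℤ[X]) (n j : ℕ) :
    (((expand ℤ[X] p).toRingHom.comp (mapRingHom (C : ℤ →+* ℤ[X])) a).coeff n).coeff j =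
      if p ∣ n ∧ j = 0 then a.coeff (n / p) else 0 := by
  have h : ((expand ℤ[X] p).toRingHom.comp (mapRingHom (C : ℤ →+* ℤ[X]))) a =
      expand ℤ[X] p (a.map C) := rfl
  rw [h, coeff_expand hp, coeff_map]
  by_cases h1 : p ∣ n
  · by_cases h2 : j = 0
    · rw [if_pos h1, if_pos ⟨h1, h2⟩, h2, coeff_C_zero]
    · rw [if_pos h1, if_neg (fun h => h2 h.2), coeff_C_ne_zero h2]
  · rw [if_neg h1, if_neg (fun h => h1 h.1), coeff_zero]

theorem coeff_phi (p q : ℕ) (hp : 0 < p) (F : ℤ[X][X]) (n j : ℕ) :
    ((phi p q F).coeff n).coeff j =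
      if q * j ≤ n ∧ p ∣ n - q * j then (F.coeff j).coeff ((n - q * j) / p) else 0 := by
  induction F using Polynomial.induction_on' with
  | add F1 F2 h1 h2 =>
    rw [map_add, coeff_add, coeff_add, h1, h2, coeff_add]
    split_ifs
    · rw [coeff_add]
    · rw [add_zero]
  | monomial k a =>
    have h1 : phi p q (monomial k a) =
        ((expand ℤ[X] p).toRingHom.comp (mapRingHom (C : ℤ →+* ℤ[X])) a) * C (X ^ k) *
          X ^ (q * k) := by
      unfold phi
      rw [coe_eval₂RingHom, eval₂_monomial, mul_pow, ← pow_mul, C_pow, mul_assoc]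
    rw [h1, coeff_mul_X_pow']
    by_cases hk : q * k ≤ n
    · rw [if_pos hk, coeff_mul_C, coeff_mul_X_pow', coeff_psi p hp]
      by_cases hj : j = k
      · subst hj
        rw [if_pos le_rfl, Nat.sub_self, coeff_monomial_same]
        by_cases h2 : p ∣ n - q * j
        · rw [if_pos ⟨h2, rfl⟩, if_pos ⟨hk, h2⟩]
        · rw [if_neg (fun h => h2 h.1), if_neg (fun h => h2 h.2)]
      · rw [coeff_monomial_of_ne _ (fun h => hj h)]
        have h3 : (if k ≤ j then (if p ∣ n - q * k ∧ j - k = 0 then a.coeff ((n - q * k) / p)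
            else 0) else 0) = 0 := by
          split_ifs with h4 h5
          · omega
          · rfl
          · rfl
        rw [h3]
        simp
    · rw [if_neg hk, coeff_zero]
      by_cases hj : j = k
      · subst hj
        rw [if_neg (fun h => hk h.1)]
      · rw [coeff_monomial_of_ne _ (fun h => hj h)]
        simp

theorem edge_prime (r p q : ℕ) (hr : 1 ≤ r) (hp : 1 ≤ p) (hq : 1 ≤ q) (hpq : Nat.Coprime p q)
    (G : ℤ[X][X]) (hm : G.Monic) (hd : G.natDegree = r * p)
    (hw : ∀ i j, (G.coeff j).coeff i ≠ 0 → p * i + q * j ≤ p * q * r)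
    (g : ℤ[X]) (hgm : g.Monic) (hgd : g.natDegree = r)
    (hg : ∀ l ≤ r, g.coeff l = (G.coeff (p * l)).coeff (q * (r - l))) (hg0 : g.coeff 0 ≠ 0)
    (hgi : Irreducible (g.map (Int.castRingHom ℚ))) : Prime G := by
  have hp0 : 0 < p := hp
  have hq0 : 0 < q := hq
  suffices hirr : Irreducible G from hirr.prime
  rw [hm.irreducible_iff_natDegree]
  refine ⟨?_, ?_⟩
  · intro h
    rw [h, natDegree_one] at hd
    have : 0 < r * p := Nat.mul_pos hr hp
    omega
  intro G1 G2 hm1 hm2 hG
  -- the degrees
  have hdd : G1.natDegree + G2.natDegree = r * p := by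
    rw [← hd, ← hG, hm1.natDegree_mul hm2]
  have hlow : ∀ F : ℤ[X][X], F.Monic →
      ((phi p q F).coeff (q * F.natDegree)).coeff F.natDegree = 1 := by
    intro F hF
    rw [coeff_phi p q hp0, if_pos ⟨le_rfl, by simp⟩, Nat.sub_self, Nat.zero_div,
      hF.coeff_natDegree, coeff_one_zero]
  have hle : ∀ F : ℤ[X][X], F.Monic → q * F.natDegree ≤ (phi p q F).natDegree := by
    intro F hF
    apply le_natDegree_of_ne_zero
    intro h
    have := hlow F hF
    rw [h, coeff_zero] at this
    exact zero_ne_one this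
  have hne : ∀ F : ℤ[X][X], F.Monic → phi p q F ≠ 0 := by
    intro F hF h
    have := hlow F hF
    rw [h, coeff_zero, coeff_zero] at this
    exact zero_ne_one this
  have hup : (phi p q G).natDegree ≤ p * q * r := by
    rw [natDegree_le_iff_coeff_eq_zero]
    intro n hn
    ext j
    rw [coeff_phi p q hp0, coeff_zero]
    split_ifs with h
    · by_contra hne
      have h1 := hw _ _ hne
      rw [Nat.mul_div_cancel' h.2] at h1
      omega
    · rfl
  have hmul : phi p q G1 * phi p q G2 = phi p q G := by rw [← map_mul, hG]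
  have hsum : (phi p q G1).natDegree + (phi p q G2).natDegree = (phi p q G).natDegree := by
    rw [← hmul, natDegree_mul (hne _ hm1) (hne _ hm2)]
  have hqd : q * G1.natDegree + q * G2.natDegree = p * q * r := by
    rw [← Nat.mul_add, hdd]
    ring
  have hl1 := hle G1 hm1
  have hl2 := hle G2 hm2
  have hn1 : (phi p q G1).natDegree = q * G1.natDegree := by omega
  have hn2 : (phi p q G2).natDegree = q * G2.natDegree := by omega
  have hn : (phi p q G).natDegree = p * q * r := by omega
  -- the leading coefficients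
  have hlead : (phi p q G1).leadingCoeff * (phi p q G2).leadingCoeff = expand ℤ p g := by
    rw [← leadingCoeff_mul, hmul, leadingCoeff, hn]
    ext j
    rw [coeff_phi p q hp0, coeff_expand hp0]
    by_cases hj : p ∣ j
    · obtain ⟨l, rfl⟩ := hj
      rw [if_pos (Dvd.intro _ rfl), Nat.mul_div_cancel_left _ hp0]
      by_cases hl : l ≤ r
      · have e1 : q * (p * l) ≤ p * q * r := by
          calc q * (p * l) = p * q * l := by ring
            _ ≤ p * q * r := Nat.mul_le_mul_left _ hl
        have e2 : p * q * r - q * (p * l) = p * (q * (r - l)) := by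
          rw [Nat.mul_sub, Nat.mul_sub]
          congr 1 <;> ring
        rw [e2, if_pos ⟨e1, Dvd.intro _ rfl⟩, Nat.mul_div_cancel_left _ hp0, hg l hl]
      · rw [if_neg, coeff_eq_zero_of_natDegree_lt (by rw [hgd]; omega)]
        rintro ⟨h1, -⟩
        apply hl
        have h2 : p * q * l ≤ p * q * r := by
          calc p * q * l = q * (p * l) := by ring
            _ ≤ _ := h1
        exact Nat.le_of_mul_le_mul_left h2 (Nat.mul_pos hp0 hq0)
    · rw [if_neg hj, if_neg]
      rintro ⟨h1, h2⟩
      apply hj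
      have h3 : p ∣ q * j := by
        have h4 : p ∣ p * q * r := Dvd.intro _ (mul_assoc p q r).symm
        have h5 := Nat.dvd_sub h4 h2
        rwa [Nat.sub_sub_self h1] at h5
      exact hpq.dvd_of_dvd_mul_left h3
  have hL0 : ∀ F : ℤ[X][X], F.Monic → (phi p q F).natDegree = q * F.natDegree →
      ∀ j, (phi p q F).leadingCoeff.coeff j ≠ 0 → j ≤ F.natDegree ∧ p ∣ F.natDegree - j := by
    intro F _ hF j hj
    rw [leadingCoeff, hF, coeff_phi p q hp0] at hj
    split_ifs at hj with h
    · have h1 : j ≤ F.natDegree := Nat.le_of_mul_le_mul_left h.1 hq0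
      refine ⟨h1, ?_⟩
      have h2 := h.2
      rw [← Nat.mul_sub] at h2
      exact hpq.dvd_of_dvd_mul_left h2
    · exact absurd rfl hj
  have h00 : (phi p q G1).leadingCoeff.coeff 0 * (phi p q G2).leadingCoeff.coeff 0 ≠ 0 := by
    rw [← mul_coeff_zero, hlead, coeff_expand hp0, if_pos (dvd_zero p), Nat.zero_div]
    exact hg0
  have hdv1 : p ∣ G1.natDegree := by
    have := (hL0 G1 hm1 hn1 0 (left_ne_zero_of_mul h00)).2
    rwa [Nat.sub_zero] at this
  have hdv2 : p ∣ G2.natDegree := by
    have := (hL0 G2 hm2 hn2 0 (right_ne_zero_of_mul h00)).2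
    rwa [Nat.sub_zero] at this
  -- contraction
  have hcon : ∀ F : ℤ[X][X], F.Monic → (phi p q F).natDegree = q * F.natDegree →
      p ∣ F.natDegree → expand ℤ p (contract p (phi p q F).leadingCoeff) =
        (phi p q F).leadingCoeff := by
    intro F hF h1 h2
    ext j
    rw [coeff_expand hp0]
    by_cases hj : p ∣ j
    · rw [if_pos hj, coeff_contract hp0.ne', Nat.div_mul_cancel hj]
    · rw [if_neg hj]
      by_contra hc
      obtain ⟨h3, h4⟩ := hL0 F hF h1 j (Ne.symm hc)
      apply hj
      have h5 := Nat.dvd_sub h2 h4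
      rwa [Nat.sub_sub_self h3] at h5
  have hgg : contract p (phi p q G1).leadingCoeff * contract p (phi p q G2).leadingCoeff = g := by
    apply expand_injective hp0
    rw [map_mul, hcon G1 hm1 hn1 hdv1, hcon G2 hm2 hn2 hdv2, hlead]
  -- degree zero
  have hend : ∀ F : ℤ[X][X], F.Monic → (phi p q F).natDegree = q * F.natDegree →
      p ∣ F.natDegree →
      IsUnit ((contract p (phi p q F).leadingCoeff).map (Int.castRingHom ℚ)) →
      F.natDegree = 0 := by
    intro F hF h1 h2 hu
    obtain ⟨l, hl⟩ := h2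
    have h3 : (contract p (phi p q F).leadingCoeff).coeff l = 1 := by
      rw [coeff_contract hp0.ne', leadingCoeff, h1, mul_comm l p, ← hl]
      exact hlow F hF
    have h4 := natDegree_eq_zero_of_isUnit hu
    rw [natDegree_map_eq_of_injective Int.cast_injective] at h4
    have h5 : l ≤ (contract p (phi p q F).leadingCoeff).natDegree := by
      apply le_natDegree_of_ne_zero
      rw [h3]
      exact one_ne_zero
    rw [hl]
    have : l = 0 := by omega
    rw [this, mul_zero]
  rw [← hgg, Polynomial.map_mul] at hgi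
  rcases hgi.isUnit_or_isUnit rfl with h | h
  · exact Or.inl (hend G1 hm1 hn1 hdv1 h)
  · exact Or.inr (hend G2 hm2 hn2 hdv2 h)

end Pool.Agent.Y660.SG
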